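import Mathlib
import Pool.Agent.Q256.UI.Stm

set_option autoImplicit false

/-!
# Job COL of project UI (helper256): three points in a short window are collinear
-/

namespace Pool.Agent.Q182.UI

open Pool.Agent.Q256.UI

theorem col : S_DD2 → S_SPC → S_COL := by
  intro hdd hsp d A hd hA
  obtain ⟨C2, hC2, h2⟩ := hdd d A hd hA
  obtain ⟨C1, hC1, h1⟩ := hsp d A hd hA
  refine ⟨1 / (4 * C2), C1 + C2 + 12 * A * C2, by positivity, by nlinarith [mul_nonneg (by linarith : (0:ℝ) ≤ A) (by linarith : (0:ℝ) ≤ C2)], ?_⟩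
  intro H T W L θ a hH hT hbd hlio hW0 hW hL0 hL p hp q hq r hr hpq hqr hrp
  have hAC : 0 ≤ A * C2 := mul_nonneg (by linarith) (by linarith)
  have hT1 : C1 * H ≤ T := by nlinarith
  have hT2 : C2 * H ≤ T := by nlinarith
  have hT3 : 12 * A * C2 * H ≤ T := by nlinarith
  have hTpos : 0 < T := by nlinarith
  have key := h1 H T W θ a hH hT1 hbd hlio hW0 hW
  by_cases e1 : p = q
  · subst e1; ring
  by_cases e2 : q = r
  · subst e2; ring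
  by_cases e3 : r = p
  · subst e3; ring
  have n1 := (key p hp q hq e1).1
  have n2 := (key q hq r hr e2).1
  have n3 := (key r hr p hp e3).1
  obtain ⟨hp1, hp2, hp3, hp4⟩ := hp
  obtain ⟨hq1, hq2, hq3, hq4⟩ := hq
  obtain ⟨hr1, hr2, hr3, hr4⟩ := hr
  have one_le : ∀ m n : ℤ, m ≠ n → (1 : ℝ) ≤ |(m : ℝ) - n| := by
    intro m n hmn
    have : (1 : ℤ) ≤ |m - n| := Int.one_le_abs (sub_ne_zero.mpr hmn)
    calc (1 : ℝ) ≤ ((|m - n| : ℤ) : ℝ) := by exact_mod_cast this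
      _ = |(m : ℝ) - n| := by push_cast; rfl
  have main := h2 H T W a hH hT2 hbd hW0 hW (p.1 : ℝ) (q.1 : ℝ) (r.1 : ℝ)
    ((p.2 : ℝ) - θ * p.1) ((q.2 : ℝ) - θ * q.1) ((r.2 : ℝ) - θ * r.1)
    hp1 hp2 hq1 hq2 hr1 hr2 (one_le _ _ n1) (one_le _ _ n2) (one_le _ _ n3)
    hp3 hq3 hr3 hp4 hq4 hr4
  have hdet : ((p.2 : ℝ) - θ * p.1) * (q.1 - r.1) + ((q.2 : ℝ) - θ * q.1) * (r.1 - p.1) +
      ((r.2 : ℝ) - θ * r.1) * (p.1 - q.1) =
      ((p.2 * (q.1 - r.1) + q.2 * (r.1 - p.1) + r.2 * (p.1 - q.1) : ℤ) : ℝ) := by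
    push_cast; ring
  rw [hdet] at main
  -- the bound
  have b1 : |(p.1 : ℝ) - q.1| * |(q.1 : ℝ) - r.1| * |(r.1 : ℝ) - p.1| ≤ L ^ 3 := by
    calc |(p.1 : ℝ) - q.1| * |(q.1 : ℝ) - r.1| * |(r.1 : ℝ) - p.1| ≤ L * L * L := by
          gcongr
      _ = L ^ 3 := by ring
  have dT : ∀ s t : ℝ, T ≤ s → s ≤ 2 * T → T ≤ t → t ≤ 2 * T → |s - t| ≤ T := by
    intro s t h1 h2 h3 h4
    rw [abs_le]; constructor <;> linarith
  have b2 : |(p.1 : ℝ) - q.1| + |(q.1 : ℝ) - r.1| + |(r.1 : ℝ) - p.1| ≤ 3 * T := by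
    have := dT _ _ hp1 hp2 hq1 hq2
    have := dT _ _ hq1 hq2 hr1 hr2
    have := dT _ _ hr1 hr2 hp1 hp2
    linarith
  have b3 : H ^ 2 / T ^ 3 * (|(p.1 : ℝ) - q.1| * |(q.1 : ℝ) - r.1| * |(r.1 : ℝ) - p.1|) ≤
      1 / (4 * C2) := by
    calc H ^ 2 / T ^ 3 * (|(p.1 : ℝ) - q.1| * |(q.1 : ℝ) - r.1| * |(r.1 : ℝ) - p.1|)
        ≤ H ^ 2 / T ^ 3 * L ^ 3 := by
          apply mul_le_mul_of_nonneg_left b1; positivity
      _ = (L ^ 3 * H ^ 2) / T ^ 3 := by ring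
      _ ≤ (1 / (4 * C2) * T ^ 3) / T ^ 3 := by gcongr
      _ = 1 / (4 * C2) := by field_simp
  have b4 : W / T ^ (d - 1) ≤ A * H / T ^ 2 := by
    have hd' : d - 1 = (d - 3) + 2 := by omega
    rw [hd', pow_add, div_le_div_iff₀ (by positivity) (by positivity)]
    calc W * T ^ 2 ≤ (A * H * T ^ (d - 3)) * T ^ 2 := by gcongr
      _ = A * H * (T ^ (d - 3) * T ^ 2) := by ring
  have b5 : W / T ^ (d - 1) * (|(p.1 : ℝ) - q.1| + |(q.1 : ℝ) - r.1| + |(r.1 : ℝ) - p.1|) ≤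
      1 / (4 * C2) := by
    calc W / T ^ (d - 1) * (|(p.1 : ℝ) - q.1| + |(q.1 : ℝ) - r.1| + |(r.1 : ℝ) - p.1|)
        ≤ (A * H / T ^ 2) * (3 * T) := by
          apply mul_le_mul b4 b2 (by positivity) (by positivity)
      _ = 3 * A * H / T := by field_simp
      _ ≤ 1 / (4 * C2) := by
          rw [div_le_div_iff₀ hTpos (by positivity)]
          nlinarith
  have b6 : |((p.2 * (q.1 - r.1) + q.2 * (r.1 - p.1) + r.2 * (p.1 - q.1) : ℤ) : ℝ)| < 1 := by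
    refine lt_of_le_of_lt main ?_
    have : C2 * (1 / (4 * C2) + 1 / (4 * C2)) = 1 / 2 := by field_simp; norm_num
    have h3 : C2 * (H ^ 2 / T ^ 3 * (|(p.1 : ℝ) - q.1| * |(q.1 : ℝ) - r.1| * |(r.1 : ℝ) - p.1|) +
        W / T ^ (d - 1) * (|(p.1 : ℝ) - q.1| + |(q.1 : ℝ) - r.1| + |(r.1 : ℝ) - p.1|)) ≤
        C2 * (1 / (4 * C2) + 1 / (4 * C2)) := by
      apply mul_le_mul_of_nonneg_left (add_le_add b3 b5); linarith
    linarith
  have b7 : |(p.2 * (q.1 - r.1) + q.2 * (r.1 - p.1) + r.2 * (p.1 - q.1) : ℤ)| < 1 := by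
    exact_mod_cast b6
  exact Int.abs_lt_one_iff.mp b7

end Pool.Agent.Q182.UI
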